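import Pool.Agent.Run7.h528.PP.Basic

/-!
# Semidirect products of graph products of pairs with groups acting on the graph
-/

set_option autoImplicit false

namespace Run7.h528.PP

open Pool.Agent.Y110.FJ
open Pool.Agent.Y462.SS (Closed)
open Pool.Agent.N77.GP

section mor

variable {V V' A : Type} {Λ : SimpleGraph V} {Λ' : SimpleGraph V'} [Group A] {K : Subgroup A}

open Classical in
/-- the homomorphism given by a partial injection of graphs -/
noncomputable def gdef (Λ : SimpleGraph V) (Λ' : SimpleGraph V') (K : Subgroup A) (D : Set V)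
    (ι : D → V') (hι : Function.Injective ι)
    (hadj : ∀ x y : D, Λ.Adj x y → Λ'.Adj (ι x) (ι y)) :
    GPP Λ (fun _ => A) (fun _ => K) →* GPP Λ' (fun _ => A) (fun _ => K) :=
  glift (fun v => if h : v ∈ D then GPP.of Λ' (fun _ => A) (fun _ => K) (ι ⟨v, h⟩) else 1) (by
    intro v w hne a b hvw
    by_cases hv : v ∈ D <;> by_cases hw : w ∈ D
    · simp only [dif_pos hv, dif_pos hw]
      refine gcomm (Λ := Λ') (A := fun _ => A) (H := fun _ => K)
        (fun h => hne (congrArg Subtype.val (hι h))) a b ?_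
      rcases hvw with h | h
      · exact Or.inl (hadj _ _ h)
      · exact Or.inr h
    · simp only [dif_neg hw, MonoidHom.one_apply, mul_one, one_mul]
    · simp only [dif_neg hv, MonoidHom.one_apply, mul_one, one_mul]
    · simp only [dif_neg hw, MonoidHom.one_apply, mul_one, one_mul])

theorem gdef_of (D : Set V) (ι : D → V') (hι : Function.Injective ι)
    (hadj : ∀ x y : D, Λ.Adj x y → Λ'.Adj (ι x) (ι y)) {v : V} (h : v ∈ D) (a : A) :
    gdef Λ Λ' K D ι hι hadj (GPP.of Λ (fun _ => A) (fun _ => K) v a) =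
      GPP.of Λ' (fun _ => A) (fun _ => K) (ι ⟨v, h⟩) a := by
  rw [gdef, glift_of, dif_pos h]

/-- the endomorphism given by a permutation of the vertices -/
noncomputable def gmapHom (Λ : SimpleGraph V) (K : Subgroup A) (τ : Equiv.Perm V)
    (hτ : ∀ x y, Λ.Adj (τ x) (τ y) ↔ Λ.Adj x y) :
    GPP Λ (fun _ => A) (fun _ => K) →* GPP Λ (fun _ => A) (fun _ => K) :=
  glift (fun w => GPP.of Λ (fun _ => A) (fun _ => K) (τ w)) (fun v w hne a b h =>
    gcomm (Λ := Λ) (A := fun _ => A) (H := fun _ => K) (fun h' => hne (τ.injective h')) a b (by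
      rcases h with h | h
      · exact Or.inl ((hτ v w).2 h)
      · exact Or.inr h))

theorem gmapHom_of (τ : Equiv.Perm V) (hτ : ∀ x y, Λ.Adj (τ x) (τ y) ↔ Λ.Adj x y) (v : V) (a : A) :
    gmapHom Λ K τ hτ (GPP.of Λ (fun _ => A) (fun _ => K) v a) =
      GPP.of Λ (fun _ => A) (fun _ => K) (τ v) a :=
  glift_of (Λ := Λ) (A := fun _ => A) (H := fun _ => K) _ _ _ _

/-- the automorphism given by a permutation of the vertices -/
noncomputable def gmap (Λ : SimpleGraph V) (K : Subgroup A) (τ : Equiv.Perm V)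
    (hτ : ∀ x y, Λ.Adj (τ x) (τ y) ↔ Λ.Adj x y) : MulAut (GPP Λ (fun _ => A) (fun _ => K)) :=
  MonoidHom.toMulEquiv (gmapHom Λ K τ hτ) (gmapHom Λ K τ.symm (adj_symm hτ))
    (gext fun v a => by
      rw [MonoidHom.comp_apply, gmapHom_of, gmapHom_of]
      simp)
    (gext fun v a => by
      rw [MonoidHom.comp_apply, gmapHom_of, gmapHom_of]
      simp)

theorem gmap_of (τ : Equiv.Perm V) (hτ : ∀ x y, Λ.Adj (τ x) (τ y) ↔ Λ.Adj x y) (v : V) (a : A) :
    gmap Λ K τ hτ (GPP.of Λ (fun _ => A) (fun _ => K) v a) =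
      GPP.of Λ (fun _ => A) (fun _ => K) (τ v) a :=
  gmapHom_of τ hτ v a

theorem gmap_pow_of (τ : Equiv.Perm V) (hτ : ∀ x y, Λ.Adj (τ x) (τ y) ↔ Λ.Adj x y) (k : ℕ) (v : V)
    (a : A) : (gmap Λ K τ hτ ^ k) (GPP.of Λ (fun _ => A) (fun _ => K) v a) =
      GPP.of Λ (fun _ => A) (fun _ => K) ((τ ^ k) v) a := by
  induction k with
  | zero => simp
  | succ k ih =>
    rw [pow_succ', MulAut.mul_apply, ih, gmap_of, pow_succ']
    rfl

theorem gmap_pow_one (τ : Equiv.Perm V) (hτ : ∀ x y, Λ.Adj (τ x) (τ y) ↔ Λ.Adj x y) (k : ℕ)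
    (hk : τ ^ k = 1) : gmap Λ K τ hτ ^ k = 1 := by
  apply MulEquiv.toMonoidHom_injective
  refine gext fun v a => ?_
  have h1 := gmap_pow_of (Λ := Λ) (K := K) τ hτ k v a
  rw [hk] at h1
  exact h1

/-- mapping tori of automorphisms of finite order given by permutations of the vertices -/
theorem mt_gmap {C : ∀ (G : Type) [Group G], Prop} (hC : ClosedE C) (hA : C A) (τ : Equiv.Perm V)
    (hτ : ∀ x y, Λ.Adj (τ x) (τ y) ↔ Λ.Adj x y) (k : ℕ) (hk0 : 0 < k) (hk : τ ^ k = 1) :
    C (MT (GPP Λ (fun _ => A) (fun _ => K)) (gmap Λ K τ hτ)) := by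
  refine mt_pow hC.base hk0 ?_
  rw [gmap_pow_one τ hτ k hk]
  exact mt_one hC.base (gpp hC V Λ (fun _ => A) (fun _ => K) (fun _ => hA))

end mor

/-- **graph-wreath products of pairs** -/
theorem gpw {C : ∀ (G : Type) [Group G], Prop} (hC : ClosedE C) (V Q A : Type) [Group Q] [Group A]
    (K : Subgroup A) [MulAction Q V] (Λ : SimpleGraph V)
    (hadj : ∀ (q : Q) (v w : V), Λ.Adj v w → Λ.Adj (q • v) (q • w))
    (α : Q →* MulAut (GPP Λ (fun _ => A) (fun _ => K)))
    (hα : ∀ (q : Q) (v : V) (a : A), α q (GPP.of Λ (fun _ => A) (fun _ => K) v a) =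
      GPP.of Λ (fun _ => A) (fun _ => K) (q • v) a)
    (hA : C A) (hQ : C Q) : C (GPP Λ (fun _ => A) (fun _ => K) ⋊[α] Q) := by
  classical
  obtain ⟨N, hN⟩ : ∃ N : Subgroup (GPP Λ (fun _ => A) (fun _ => K) ⋊[α] Q),
    N = (SemidirectProduct.rightHom (φ := α)).ker := ⟨_, rfl⟩
  have hNn : N.Normal := hN ▸ inferInstance
  have hNm : ∀ x ∈ N, x.right = 1 := by
    intro x hx
    rw [hN, MonoidHom.mem_ker] at hx
    exact hx
  have hQN : C ((GPP Λ (fun _ => A) (fun _ => K) ⋊[α] Q) ⧸ N) := by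
    subst hN
    exact hC.base.of_injective _ _ (QuotientGroup.kerLift (SemidirectProduct.rightHom (φ := α)))
      (QuotientGroup.kerLift_injective _) hQ
  refine Q30.FJ.crit C hC _ N hQN fun g E hE hEN => ?_
  -- the finite set of vertices
  obtain ⟨S, hgS, hES⟩ : ∃ S : Finset V, g.left ∈ gsub Λ (fun _ => A) (fun _ => K) (S : Set V) ∧
      ∀ x ∈ E, x.left ∈ gsub Λ (fun _ => A) (fun _ => K) (S : Set V) := by
    choose σ hσ using gsupp Λ (fun _ => A) (fun _ => K)
    have hfin : ((fun x : GPP Λ (fun _ => A) (fun _ => K) ⋊[α] Q => x.left) '' E).Finite :=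
      hE.image _
    refine ⟨(insert g.left hfin.toFinset).biUnion σ, ?_, ?_⟩
    · refine gsub_mono ?_ (hσ g.left)
      intro v hv
      rw [Finset.mem_coe, Finset.mem_biUnion]
      exact ⟨_, Finset.mem_insert_self _ _, hv⟩
    · intro x hx
      refine gsub_mono ?_ (hσ x.left)
      intro v hv
      rw [Finset.mem_coe, Finset.mem_biUnion]
      exact ⟨_, Finset.mem_insert_of_mem (hfin.mem_toFinset.2 ⟨x, hx, rfl⟩), hv⟩
  obtain ⟨q, hq⟩ : ∃ q : Q, q = g.right := ⟨_, rfl⟩
  obtain ⟨S', hS'⟩ : ∃ S' : Set V, S' = (S : Set V) ∪ (fun v => q • v) '' (S : Set V) := ⟨_, rfl⟩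
  have hfin : Finite S' := by
    rw [hS']
    exact (S.finite_toSet.union (S.finite_toSet.image _))
  have hSS' : ∀ v ∈ (S : Set V), v ∈ S' := fun v hv => by rw [hS']; exact Or.inl hv
  have hqS' : ∀ v ∈ (S : Set V), q • v ∈ S' := fun v hv => by rw [hS']; exact Or.inr ⟨v, hv, rfl⟩
  have hadj' : ∀ v w : V, Λ.Adj (q • v) (q • w) ↔ Λ.Adj v w := by
    intro v w
    refine ⟨fun h => ?_, hadj q v w⟩
    have h1 := hadj q⁻¹ _ _ h
    rwa [inv_smul_smul, inv_smul_smul] at h1
  obtain ⟨T, _, Λ', ι, τ, hι, hιadj, hτ, hτι⟩ := Q30.FJ.eppa S' hfin (Λ.comap Subtype.val)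
    {x : S' | x.1 ∈ (S : Set V)} (fun x => ⟨q • x.1.1, hqS' _ x.2⟩)
    (fun x y hxy => Subtype.ext (Subtype.ext (MulAction.injective q
      (congrArg Subtype.val hxy)))) (fun x y => hadj' _ _)
  obtain ⟨φ, hφ⟩ : ∃ φ : GPP Λ (fun _ => A) (fun _ => K) →* GPP Λ' (fun _ => A) (fun _ => K),
      ∀ (v : V) (h : v ∈ S') (a : A), φ (GPP.of Λ (fun _ => A) (fun _ => K) v a) =
        GPP.of Λ' (fun _ => A) (fun _ => K) (ι ⟨v, h⟩) a :=
    ⟨gdef Λ Λ' K S' ι hι (fun x y h => (hιadj x y).2 h), fun v h a => gdef_of _ _ _ _ h a⟩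
  obtain ⟨ψ, hψ⟩ : ∃ ψ : GPP Λ' (fun _ => A) (fun _ => K) →* GPP Λ (fun _ => A) (fun _ => K),
      ∀ (x : S') (a : A), ψ (GPP.of Λ' (fun _ => A) (fun _ => K) (ι x) a) =
        GPP.of Λ (fun _ => A) (fun _ => K) x.1 a := by
    have hex : ∀ t : Set.range ι, ∃ x : S', ι x = t.1 := fun t => t.2
    choose ρ hρ using hex
    refine ⟨gdef Λ' Λ K (Set.range ι) (fun t => (ρ t).1) ?_ ?_, ?_⟩
    · intro t t' htt
      have h1 : ρ t = ρ t' := Subtype.ext htt
      apply Subtype.ext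
      rw [← hρ t, ← hρ t', h1]
    · intro t t' htt
      have h1 : Λ'.Adj (ι (ρ t)) (ι (ρ t')) := by rw [hρ, hρ]; exact htt
      exact (hιadj _ _).1 h1
    · intro x a
      rw [gdef_of _ _ _ _ (Set.mem_range_self x) a]
      have h1 : ρ ⟨ι x, Set.mem_range_self x⟩ = x := hι (hρ _)
      rw [h1]
  have hψφ : ∀ x ∈ gsub Λ (fun _ => A) (fun _ => K) S', ψ (φ x) = x := by
    intro x hx
    exact gsub_eq (f := ψ.comp φ) (g := MonoidHom.id _) (fun v hv a => by
      rw [MonoidHom.comp_apply, hφ v hv a, hψ]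
      rfl) x hx
  -- the closure
  have hα' : ∀ x ∈ gsub Λ (fun _ => A) (fun _ => K) (S : Set V),
      α q x ∈ gsub Λ (fun _ => A) (fun _ => K) S' := by
    intro x hx
    have h1 : gsub Λ (fun _ => A) (fun _ => K) (S : Set V) ≤
        (gsub Λ (fun _ => A) (fun _ => K) S').comap (α q).toMonoidHom := by
      rw [gsub, Subgroup.closure_le]
      rintro _ ⟨v, hv, a, rfl⟩
      show α q (GPP.of Λ (fun _ => A) (fun _ => K) v a) ∈ gsub Λ (fun _ => A) (fun _ => K) S'
      rw [hα]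
      exact gsub_of (Λ := Λ) (A := fun _ => A) (H := fun _ => K) (hqS' v hv) a
    exact h1 hx
  have hleft : ∀ x ∈ E, (g * x * g⁻¹).left = g.left * α q x.left * g.left⁻¹ := by
    intro x hx
    have h1 := hNm x (hEN hx)
    rw [SemidirectProduct.mul_left, SemidirectProduct.mul_left, SemidirectProduct.mul_right, h1,
      SemidirectProduct.inv_left, mul_one, ← hq, ← MulAut.mul_apply, ← map_mul, mul_inv_cancel,
      map_one, MulAut.one_apply]
  have hcl : ∀ x ∈ Subgroup.closure (E ∪ (fun x => g * x * g⁻¹) '' E),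
      x ∈ (gsub Λ (fun _ => A) (fun _ => K) S').map (SemidirectProduct.inl (φ := α)) := by
    intro x hx
    refine (Subgroup.closure_le _).2 ?_ hx
    have hin : ∀ y : GPP Λ (fun _ => A) (fun _ => K) ⋊[α] Q, y ∈ N →
        y.left ∈ gsub Λ (fun _ => A) (fun _ => K) S' →
        y ∈ (gsub Λ (fun _ => A) (fun _ => K) S').map (SemidirectProduct.inl (φ := α)) := by
      intro y hy hyl
      refine ⟨y.left, hyl, ?_⟩
      apply SemidirectProduct.ext
      · exact SemidirectProduct.left_inl _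
      · rw [SemidirectProduct.right_inl, hNm y hy]
    rintro y (hy | ⟨z, hz, rfl⟩)
    · exact hin y (hEN hy) (gsub_mono hSS' (hES y hy))
    · refine hin _ (hNn.conj_mem z (hEN hz) g) ?_
      show (g * z * g⁻¹).left ∈ _
      rw [hleft z hz]
      have h1 := gsub_mono (Λ := Λ) (A := fun _ => A) (H := fun _ => K) hSS' hgS
      exact Subgroup.mul_mem _ (Subgroup.mul_mem _ h1 (hα' _ (hES z hz))) (Subgroup.inv_mem _ h1)
  have hclN : ∀ x ∈ Subgroup.closure (E ∪ (fun x => g * x * g⁻¹) '' E), x.right = 1 := by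
    intro x hx
    obtain ⟨y, _, rfl⟩ := hcl x hx
    exact SemidirectProduct.right_inl _
  refine ⟨MT (GPP Λ' (fun _ => A) (fun _ => K)) (gmap Λ' K τ hτ), inferInstance,
    (il _).comp (φ.comp (MonoidHom.mk' (fun x => (x.1).left) (fun x y => ?_))),
    il _ (φ g.left) * tt _, ?_, ?_, ?_⟩
  · show (x.1 * y.1).left = _
    rw [SemidirectProduct.mul_left, hclN x.1 x.2, map_one, MulAut.one_apply]
  · have hτfin : IsOfFinOrder τ := isOfFinOrder_of_finite τ
    exact mt_gmap hC hA τ hτ (orderOf τ) hτfin.orderOf_pos (pow_orderOf_eq_one τ)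
  · rw [injective_iff_map_eq_one]
    intro x hx
    have h1 : φ x.1.left = 1 := SemidirectProduct.inl_injective (hx.trans (map_one _).symm)
    have h2 : x.1.left = 1 := by
      obtain ⟨y, hy, hyx⟩ := hcl x.1 x.2
      have h3 : x.1.left = y := by rw [← hyx]; exact SemidirectProduct.left_inl _
      rw [← hψφ x.1.left (h3 ▸ hy), h1, map_one]
    exact Subtype.ext (SemidirectProduct.ext h2 (hclN x.1 x.2))
  · intro x y hx hy
    show il _ (φ y.1.left) = il _ (φ g.left) * tt _ * il _ (φ x.1.left) *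
      (il _ (φ g.left) * tt _)⁻¹
    have h1 : φ (α q x.1.left) = gmap Λ' K τ hτ (φ x.1.left) :=
      gsub_eq (f := φ.comp (α q).toMonoidHom)
        (g := (gmap Λ' K τ hτ).toMonoidHom.comp φ) (fun v hv a => by
          show φ (α q _) = gmap Λ' K τ hτ (φ _)
          rw [hα, hφ _ (hqS' v hv), hφ v (hSS' v hv), gmap_of]
          have h2 := hτι ⟨⟨v, hSS' v hv⟩, hv⟩
          rw [h2]) _ (hES x.1 hx)
    rw [hy, hleft x.1 hx, map_mul, map_mul, map_inv, map_mul, map_mul, map_inv, h1, ← tt_conj]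
    group

/-- the graph product of equal pairs `(A, K)` -/
def GPE {V : Type} (Λ : SimpleGraph V) (A : Type) [Group A] (K : Subgroup A) : Type :=
  GPP Λ (fun _ => A) (fun _ => K)

instance {V : Type} (Λ : SimpleGraph V) (A : Type) [Group A] (K : Subgroup A) :
    Group (GPE Λ A K) := inferInstanceAs (Group (GPP Λ (fun _ => A) (fun _ => K)))

/-- the inclusion of the vertex group at `v` -/
def GPE.of {V : Type} (Λ : SimpleGraph V) (A : Type) [Group A] (K : Subgroup A) (v : V) :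
    A →* GPE Λ A K := GPP.of Λ (fun _ => A) (fun _ => K) v

/-- `Q` acts by automorphisms of the graph and permutes the vertex groups in the same way -/
structure Permutes {V Q A : Type} [Group Q] [Group A] [MulAction Q V] (Λ : SimpleGraph V)
    (K : Subgroup A) (α : Q →* MulAut (GPE Λ A K)) : Prop where
  adj : ∀ (q : Q) (v w : V), Λ.Adj v w → Λ.Adj (q • v) (q • w)
  map : ∀ (q : Q) (v : V) (a : A), α q (GPE.of Λ A K v a) = GPE.of Λ A K (q • v) a

/-- graph-wreath products of pairs -/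
theorem gpe {C : ∀ (G : Type) [Group G], Prop} (hC : ClosedE C) (V Q A : Type) [Nonempty V]
    [Group Q] [Group A] [MulAction Q V] (Λ : SimpleGraph V) (K : Subgroup A)
    (α : Q →* MulAut (GPE Λ A K)) (h : Permutes Λ K α) : C (GPE Λ A K ⋊[α] Q) ↔ C A ∧ C Q := by
  refine ⟨fun h1 => ⟨?_, ?_⟩, fun h1 => gpw hC V Q A K Λ h.adj α h.map h1.1 h1.2⟩
  · obtain ⟨v⟩ := ‹Nonempty V›
    refine hC.base.of_injective _ _ ((SemidirectProduct.inl (φ := α)).comp (GPE.of Λ A K v)) ?_ h1
    exact SemidirectProduct.inl_injective.comp (of_injective (A := fun _ => A) v)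
  · exact hC.base.of_injective _ _ (SemidirectProduct.inr (φ := α))
      SemidirectProduct.inr_injective h1

end Run7.h528.PP
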