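import Pool.Agent.Q30.FJ.Eppa
import Pool.Agent.N77.GP.Basic

/-!
# Graph products of pairs of groups
-/

set_option autoImplicit false

namespace Run7.h528.PP

open Pool.Agent.Y110.FJ
open Pool.Agent.Y462.SS (Closed)

section gp

variable {V : Type} {Λ : SimpleGraph V} {A : V → Type} [∀ v, Group (A v)]
  {H : ∀ v, Subgroup (A v)}

/-- the relations of the graph product of pairs -/
def pairRel {V : Type} (Λ : SimpleGraph V) (A : V → Type) [∀ v, Group (A v)]
    (H : ∀ v, Subgroup (A v)) : Set (Monoid.CoprodI A) :=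
  {r | ∃ (v w : V) (a : A v) (b : A w), v ≠ w ∧ (Λ.Adj v w ∨ b ∈ H w) ∧
    r = Monoid.CoprodI.of a * Monoid.CoprodI.of b * (Monoid.CoprodI.of a)⁻¹ *
      (Monoid.CoprodI.of b)⁻¹}

/-- the graph product of the pairs `(A v, H v)` -/
abbrev GPP {V : Type} (Λ : SimpleGraph V) (A : V → Type) [∀ v, Group (A v)]
    (H : ∀ v, Subgroup (A v)) : Type :=
  Monoid.CoprodI A ⧸ Subgroup.normalClosure (pairRel Λ A H)

/-- the inclusion of a vertex group -/
def GPP.of {V : Type} (Λ : SimpleGraph V) (A : V → Type) [∀ v, Group (A v)]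
    (H : ∀ v, Subgroup (A v)) (v : V) : A v →* GPP Λ A H :=
  (QuotientGroup.mk' _).comp Monoid.CoprodI.of

theorem gcomm {v w : V} (hne : v ≠ w) (a : A v) (b : A w) (h : Λ.Adj v w ∨ b ∈ H w) :
    GPP.of Λ A H v a * GPP.of Λ A H w b = GPP.of Λ A H w b * GPP.of Λ A H v a := by
  have h1 : (Monoid.CoprodI.of a * Monoid.CoprodI.of b * (Monoid.CoprodI.of a)⁻¹ *
      (Monoid.CoprodI.of b)⁻¹ : Monoid.CoprodI A) ∈ Subgroup.normalClosure (pairRel Λ A H) :=
    Subgroup.subset_normalClosure ⟨v, w, a, b, hne, h, rfl⟩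
  have h2 := (QuotientGroup.eq_one_iff _).2 h1
  have h3 : GPP.of Λ A H v a * GPP.of Λ A H w b * (GPP.of Λ A H v a)⁻¹ *
      (GPP.of Λ A H w b)⁻¹ = 1 := h2
  rw [mul_inv_eq_one, mul_inv_eq_iff_eq_mul] at h3
  exact h3

/-- the universal property -/
noncomputable def glift {X : Type} [Group X] (φ : ∀ v, A v →* X)
    (hφ : ∀ v w, v ≠ w → ∀ (a : A v) (b : A w), (Λ.Adj v w ∨ b ∈ H w) →
      φ v a * φ w b = φ w b * φ v a) :
    GPP Λ A H →* X :=
  QuotientGroup.lift _ (Monoid.CoprodI.lift φ) (by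
    intro x hx
    have h1 : Subgroup.normalClosure (pairRel Λ A H) ≤ (Monoid.CoprodI.lift φ).ker := by
      apply Subgroup.normalClosure_le_normal
      rintro _ ⟨v, w, a, b, hne, h, rfl⟩
      rw [SetLike.mem_coe, MonoidHom.mem_ker, map_mul, map_mul, map_mul, map_inv, map_inv,
        Monoid.CoprodI.lift_of, Monoid.CoprodI.lift_of, hφ v w hne a b h]
      group
    exact h1 hx)

theorem glift_of {X : Type} [Group X] (φ : ∀ v, A v →* X)
    (hφ : ∀ v w, v ≠ w → ∀ (a : A v) (b : A w), (Λ.Adj v w ∨ b ∈ H w) →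
      φ v a * φ w b = φ w b * φ v a) (v : V)
    (a : A v) : glift φ hφ (GPP.of Λ A H v a) = φ v a := by
  show Monoid.CoprodI.lift φ (Monoid.CoprodI.of a) = φ v a
  rw [Monoid.CoprodI.lift_of]

theorem gext {X : Type} [Group X] {f g : GPP Λ A H →* X}
    (h : ∀ v a, f (GPP.of Λ A H v a) = g (GPP.of Λ A H v a)) : f = g := by
  apply QuotientGroup.monoidHom_ext
  apply Monoid.CoprodI.ext_hom
  intro v
  ext a
  exact h v a

variable (Λ A H) in
/-- the subgroup of a set of vertices -/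
def gsub (S : Set V) : Subgroup (GPP Λ A H) :=
  Subgroup.closure {x | ∃ v ∈ S, ∃ a : A v, x = GPP.of Λ A H v a}

theorem gsub_of {S : Set V} {v : V} (hv : v ∈ S) (a : A v) : GPP.of Λ A H v a ∈ gsub Λ A H S :=
  Subgroup.subset_closure ⟨v, hv, a, rfl⟩

theorem gsub_mono {S T : Set V} (h : S ⊆ T) : gsub Λ A H S ≤ gsub Λ A H T := by
  apply Subgroup.closure_mono
  rintro x ⟨v, hv, a, rfl⟩
  exact ⟨v, h hv, a, rfl⟩

/-- two homomorphisms which agree on the vertex groups of `S` agree on the subgroup -/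
theorem gsub_eq {S : Set V} {X : Type} [Group X] {f g : GPP Λ A H →* X}
    (h : ∀ v ∈ S, ∀ a, f (GPP.of Λ A H v a) = g (GPP.of Λ A H v a)) :
    ∀ x ∈ gsub Λ A H S, f x = g x := by
  intro x hx
  have h1 : gsub Λ A H S ≤ f.eqLocus g := by
    rw [gsub, Subgroup.closure_le]
    rintro _ ⟨v, hv, a, rfl⟩
    exact h v hv a
  exact h1 hx

/-- homomorphisms of a closure -/
theorem cl_eq {G X : Type} [Group G] [Group X] {D : Set G} (F : G →* X)
    (f : ↥(Subgroup.closure D) →* X)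
    (h : ∀ x (hx : x ∈ D), F x = f ⟨x, Subgroup.subset_closure hx⟩) (x : G)
    (hx : x ∈ Subgroup.closure D) : F x = f ⟨x, hx⟩ := by
  have h1 : Subgroup.closure D ≤
      ((F.comp (Subgroup.subtype _)).eqLocus f).map (Subgroup.subtype (Subgroup.closure D)) := by
    rw [Subgroup.closure_le]
    intro y hy
    exact ⟨⟨y, Subgroup.subset_closure hy⟩, h y hy, rfl⟩
  obtain ⟨y, hy, hyx⟩ := h1 hx
  have h2 : y = ⟨x, hx⟩ := Subtype.ext hyx
  rw [h2] at hy
  exact hy

open Classical in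
variable (Λ A H) in
/-- the retraction onto the subgroup of a set of vertices -/
noncomputable def gret (S : Set V) : GPP Λ A H →* ↥(gsub Λ A H S) :=
  glift (fun v => if h : v ∈ S then (GPP.of Λ A H v).codRestrict _ (fun a => gsub_of h a) else 1) (by
    intro v w hne a b hvw
    by_cases hv : v ∈ S <;> by_cases hw : w ∈ S
    · simp only [dif_pos hv, dif_pos hw]
      apply Subtype.ext
      exact gcomm hne a b hvw
    · simp only [dif_neg hw, MonoidHom.one_apply, mul_one, one_mul]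
    · simp only [dif_neg hv, MonoidHom.one_apply, mul_one, one_mul]
    · simp only [dif_neg hw, MonoidHom.one_apply, mul_one, one_mul])

theorem gret_of_mem {S : Set V} {v : V} (h : v ∈ S) (a : A v) :
    ((gret Λ A H S (GPP.of Λ A H v a) : ↥(gsub Λ A H S)) : GPP Λ A H) = GPP.of Λ A H v a := by
  rw [gret, glift_of, dif_pos h]
  rfl

theorem gret_of_not {S : Set V} {v : V} (h : v ∉ S) (a : A v) :
    gret Λ A H S (GPP.of Λ A H v a) = 1 := by
  rw [gret, glift_of, dif_neg h]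
  rfl

theorem gret_eq {S : Set V} (x : GPP Λ A H) (hx : x ∈ gsub Λ A H S) :
    ((gret Λ A H S x : ↥(gsub Λ A H S)) : GPP Λ A H) = x := by
  have h := gsub_eq (Λ := Λ) (A := A) (S := S) (f := (gsub Λ A H S).subtype.comp (gret Λ A H S))
    (g := MonoidHom.id _) (fun v hv a => gret_of_mem hv a) x hx
  exact h

open Classical in
variable (Λ A H) in
/-- the retraction onto a vertex group -/
noncomputable def gvert (v : V) : GPP Λ A H →* A v :=
  glift (fun w => if h : w = v then h ▸ MonoidHom.id (A w) else 1) (by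
    intro w w' hww a b _
    by_cases hw : w = v
    · have hw' : ¬ w' = v := by
        rintro rfl
        exact hww hw
      simp only [dif_neg hw', MonoidHom.one_apply, mul_one, one_mul]
    · simp only [dif_neg hw, MonoidHom.one_apply, mul_one, one_mul])

theorem gvert_of (v : V) (a : A v) : gvert Λ A H v (GPP.of Λ A H v a) = a := by
  rw [gvert, glift_of, dif_pos rfl]
  rfl

theorem gvert_of_ne {v w : V} (h : w ≠ v) (a : A w) : gvert Λ A H v (GPP.of Λ A H w a) = 1 := by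
  rw [gvert, glift_of, dif_neg h]
  rfl

theorem of_injective (v : V) : Function.Injective (GPP.of Λ A H v) := by
  intro a b hab
  have h := congrArg (gvert Λ A H v) hab
  rwa [gvert_of, gvert_of] at h

/-- products of a subgroup and a commuting subgroup of a vertex group -/
theorem gsplit {v : V} {D : Set (GPP Λ A H)} {L : Subgroup (A v)}
    (hD : ∀ d ∈ D, ∀ a ∈ L, GPP.of Λ A H v a * d = d * GPP.of Λ A H v a) (x : GPP Λ A H)
    (hx : x ∈ Subgroup.closure {x | x ∈ D ∨ ∃ a ∈ L, x = GPP.of Λ A H v a}) :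
    ∃ d ∈ Subgroup.closure D, ∃ a ∈ L, x = d * GPP.of Λ A H v a := by
  have hcom : ∀ l ∈ Subgroup.closure D, ∀ a ∈ L,
      GPP.of Λ A H v a * l = l * GPP.of Λ A H v a := by
    intro l hl a ha
    have h1 : Subgroup.closure D ≤ Subgroup.centralizer {GPP.of Λ A H v a} := by
      rw [Subgroup.closure_le]
      intro d hd
      rw [SetLike.mem_coe, Subgroup.mem_centralizer_singleton_iff]
      exact (hD d hd a ha).symm
    exact (Subgroup.mem_centralizer_singleton_iff.1 (h1 hl)).symm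
  induction hx using Subgroup.closure_induction with
  | mem x hx =>
    rcases hx with hx | ⟨a, ha, rfl⟩
    · exact ⟨x, Subgroup.subset_closure hx, 1, L.one_mem, by rw [map_one, mul_one]⟩
    · exact ⟨1, Subgroup.one_mem _, a, ha, (one_mul _).symm⟩
  | one => exact ⟨1, Subgroup.one_mem _, 1, L.one_mem, by rw [map_one, mul_one]⟩
  | mul x y _ _ hx hy =>
    obtain ⟨l, hl, a, ha, rfl⟩ := hx
    obtain ⟨l', hl', a', ha', rfl⟩ := hy
    refine ⟨l * l', Subgroup.mul_mem _ hl hl', a * a', L.mul_mem ha ha', ?_⟩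
    rw [map_mul, mul_assoc, ← mul_assoc (GPP.of Λ A H v a), hcom l' hl' a ha]
    simp only [mul_assoc]
  | inv x _ hx =>
    obtain ⟨l, hl, a, ha, rfl⟩ := hx
    refine ⟨l⁻¹, Subgroup.inv_mem _ hl, a⁻¹, L.inv_mem ha, ?_⟩
    rw [mul_inv_rev, map_inv]
    have := hcom l⁻¹ (Subgroup.inv_mem _ hl) a⁻¹ (L.inv_mem ha)
    rw [map_inv] at this
    exact this

end gp

section amalgam

variable {V : Type} (Λ : SimpleGraph V) (A : V → Type) [∀ v, Group (A v)]
  (H : ∀ v, Subgroup (A v)) (v : V) (S : Set V)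

/-- the elements of the groups of the vertices in `S` -/
def dS : Set (GPP Λ A H) := {x | ∃ w ∈ S, ∃ a : A w, x = GPP.of Λ A H w a}

/-- those which commute with the group of `v` -/
def dM : Set (GPP Λ A H) :=
  {x | ∃ w ∈ S, ∃ a : A w, (Λ.Adj v w ∨ a ∈ H w) ∧ x = GPP.of Λ A H w a}

/-- the left factor -/
def jA : Subgroup (GPP Λ A H) :=
  Subgroup.closure {x | x ∈ dS Λ A H S ∨ ∃ a ∈ H v, x = GPP.of Λ A H v a}

/-- the right factor -/
def jB : Subgroup (GPP Λ A H) :=
  Subgroup.closure {x | x ∈ dM Λ A H v S ∨ ∃ a ∈ (⊤ : Subgroup (A v)), x = GPP.of Λ A H v a}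

/-- the amalgamated subgroup -/
def jK : Subgroup (GPP Λ A H) :=
  Subgroup.closure {x | x ∈ dM Λ A H v S ∨ ∃ a ∈ H v, x = GPP.of Λ A H v a}

variable {Λ A H v S}

theorem dM_sub : dM Λ A H v S ⊆ dS Λ A H S := by
  rintro x ⟨w, hw, a, _, rfl⟩
  exact ⟨w, hw, a, rfl⟩

theorem jK_jA : jK Λ A H v S ≤ jA Λ A H v S := by
  apply Subgroup.closure_mono
  rintro x (hx | hx)
  · exact Or.inl (dM_sub hx)
  · exact Or.inr hx

theorem jK_jB : jK Λ A H v S ≤ jB Λ A H v S := by
  apply Subgroup.closure_mono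
  rintro x (hx | ⟨a, _, rfl⟩)
  · exact Or.inl hx
  · exact Or.inr ⟨a, trivial, rfl⟩

theorem jA_le : jA Λ A H v S ≤ gsub Λ A H (insert v S) := by
  rw [jA, Subgroup.closure_le]
  rintro x (⟨w, hw, a, rfl⟩ | ⟨a, _, rfl⟩)
  · exact gsub_of (Set.mem_insert_of_mem _ hw) a
  · exact gsub_of (Set.mem_insert _ _) a

theorem jB_le : jB Λ A H v S ≤ gsub Λ A H (insert v S) := by
  rw [jB, Subgroup.closure_le]
  rintro x (⟨w, hw, a, _, rfl⟩ | ⟨a, _, rfl⟩)
  · exact gsub_of (Set.mem_insert_of_mem _ hw) a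
  · exact gsub_of (Set.mem_insert _ _) a

theorem mem_jA {w : V} (hw : w ∈ S) (a : A w) : GPP.of Λ A H w a ∈ jA Λ A H v S :=
  Subgroup.subset_closure (Or.inl ⟨w, hw, a, rfl⟩)

theorem mem_jA' (a : A v) (ha : a ∈ H v) : GPP.of Λ A H v a ∈ jA Λ A H v S :=
  Subgroup.subset_closure (Or.inr ⟨a, ha, rfl⟩)

theorem mem_jB' (a : A v) : GPP.of Λ A H v a ∈ jB Λ A H v S :=
  Subgroup.subset_closure (Or.inr ⟨a, trivial, rfl⟩)

theorem mem_jK {w : V} (hw : w ∈ S) (a : A w) (h : Λ.Adj v w ∨ a ∈ H w) :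
    GPP.of Λ A H w a ∈ jK Λ A H v S :=
  Subgroup.subset_closure (Or.inl ⟨w, hw, a, h, rfl⟩)

theorem mem_jK' (a : A v) (ha : a ∈ H v) : GPP.of Λ A H v a ∈ jK Λ A H v S :=
  Subgroup.subset_closure (Or.inr ⟨a, ha, rfl⟩)

/-- homomorphisms of the two factors extend -/
theorem guniv (hv : v ∉ S) {X : Type} [Group X] (f : ↥(jA Λ A H v S) →* X)
    (g : ↥(jB Λ A H v S) →* X)
    (hfg : ∀ x (hx : x ∈ jK Λ A H v S), f ⟨x, jK_jA hx⟩ = g ⟨x, jK_jB hx⟩) :
    ∃ Φ : GPP Λ A H →* X, (∀ x (hx : x ∈ jA Λ A H v S), Φ x = f ⟨x, hx⟩) ∧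
      ∀ x (hx : x ∈ jB Λ A H v S), Φ x = g ⟨x, hx⟩ := by
  classical
  have hex : ∀ w, ∃ φ : A w →* X,
      (∀ (h : w ∈ S) (a : A w), φ a = f ⟨GPP.of Λ A H w a, mem_jA h a⟩) ∧
      (∀ (h : w = v) (a : A w), φ a = g ⟨GPP.of Λ A H w a, by subst h; exact mem_jB' a⟩) ∧
      (w ∉ S → w ≠ v → φ = 1) := by
    intro w
    by_cases h : w ∈ S
    · refine ⟨f.comp (MonoidHom.mk' (fun a => ⟨GPP.of Λ A H w a, mem_jA h a⟩) ?_), ?_, ?_, ?_⟩
      · intro a b
        apply Subtype.ext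
        exact map_mul _ _ _
      · intro _ a
        rfl
      · intro h'
        exact absurd (h' ▸ h) hv
      · intro h'
        exact absurd h h'
    · by_cases h' : w = v
      · subst h'
        refine ⟨g.comp (MonoidHom.mk' (fun a => ⟨GPP.of Λ A H w a, mem_jB' a⟩) ?_), ?_, ?_, ?_⟩
        · intro a b
          apply Subtype.ext
          exact map_mul _ _ _
        · intro h''
          exact absurd h'' h
        · intro _ a
          rfl
        · intro _ h2
          exact absurd rfl h2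
      · refine ⟨1, ?_, ?_, ?_⟩
        · intro h''
          exact absurd h'' h
        · intro h2
          exact absurd h2 h'
        · intro _ _
          rfl
  choose φ hφS hφv' hφo using hex
  have hφv : ∀ (a : A v), φ v a = g ⟨GPP.of Λ A H v a, mem_jB' a⟩ := fun a => hφv' v rfl a
  have hvw : ∀ w (hw : w ∈ S) (a : A v) (b : A w), (Λ.Adj v w ∨ b ∈ H w) →
      φ v a * φ w b = φ w b * φ v a := by
    intro w hw a b h
    have hb := mem_jK (Λ := Λ) (A := A) (H := H) (v := v) hw b h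
    have h1 : φ w b = g ⟨GPP.of Λ A H w b, jK_jB hb⟩ := by
      rw [hφS w hw b]
      exact hfg _ hb
    rw [h1, hφv a]
    have h3 : (⟨GPP.of Λ A H v a, mem_jB' a⟩ : ↥(jB Λ A H v S)) * ⟨GPP.of Λ A H w b, jK_jB hb⟩ =
        ⟨GPP.of Λ A H w b, jK_jB hb⟩ * ⟨GPP.of Λ A H v a, mem_jB' a⟩ :=
      Subtype.ext (gcomm (by rintro rfl; exact hv hw) a b h)
    exact (map_mul g _ _).symm.trans ((congrArg g h3).trans (map_mul g _ _))
  have hwv : ∀ w (hw : w ∈ S) (a : A w) (b : A v), (Λ.Adj w v ∨ b ∈ H v) →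
      φ w a * φ v b = φ v b * φ w a := by
    intro w hw a b h
    rcases h with h | h
    · exact (hvw w hw b a (Or.inl h.symm)).symm
    · have hb := mem_jK' (Λ := Λ) (A := A) (H := H) (v := v) (S := S) b h
      have h1 : φ v b = f ⟨GPP.of Λ A H v b, jK_jA hb⟩ := by
        rw [hφv b]
        exact (hfg _ hb).symm
      rw [h1, hφS w hw a]
      have h3 : (⟨GPP.of Λ A H w a, mem_jA hw a⟩ : ↥(jA Λ A H v S)) *
          ⟨GPP.of Λ A H v b, jK_jA hb⟩ = ⟨GPP.of Λ A H v b, jK_jA hb⟩ *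
          ⟨GPP.of Λ A H w a, mem_jA hw a⟩ :=
        Subtype.ext (gcomm (by rintro rfl; exact hv hw) a b (Or.inr h))
      exact (map_mul f _ _).symm.trans ((congrArg f h3).trans (map_mul f _ _))
  obtain ⟨Φ, hΦ⟩ : ∃ Φ : GPP Λ A H →* X, ∀ w (a : A w), Φ (GPP.of Λ A H w a) = φ w a := by
    refine ⟨glift φ ?_, fun w a => glift_of φ _ w a⟩
    intro w w' hne a b hadj
    by_cases hw : w ∈ S
    · by_cases hw' : w' ∈ S
      · rw [hφS w hw a, hφS w' hw' b]
        have h3 : (⟨GPP.of Λ A H w a, mem_jA hw a⟩ : ↥(jA Λ A H v S)) *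
            ⟨GPP.of Λ A H w' b, mem_jA hw' b⟩ = ⟨GPP.of Λ A H w' b, mem_jA hw' b⟩ *
            ⟨GPP.of Λ A H w a, mem_jA hw a⟩ := Subtype.ext (gcomm hne a b hadj)
        exact (map_mul f _ _).symm.trans ((congrArg f h3).trans (map_mul f _ _))
      · by_cases hv' : w' = v
        · subst hv'
          exact hwv w hw a b hadj
        · rw [hφo w' hw' hv', MonoidHom.one_apply, mul_one, one_mul]
    · by_cases hv' : w = v
      · subst hv'
        by_cases hw' : w' ∈ S
        · exact hvw w' hw' a b hadj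
        · rw [hφo w' hw' (Ne.symm hne), MonoidHom.one_apply, mul_one, one_mul]
      · rw [hφo w hw hv', MonoidHom.one_apply, mul_one, one_mul]
  refine ⟨Φ, ?_, ?_⟩
  · intro x hx
    refine cl_eq Φ f ?_ x hx
    rintro _ (⟨w, hw, a, rfl⟩ | ⟨a, ha, rfl⟩)
    · rw [hΦ, hφS w hw a]
      rfl
    · rw [hΦ, hφv a]
      exact (hfg _ (mem_jK' a ha)).symm
  · intro x hx
    refine cl_eq Φ g ?_ x hx
    rintro _ (⟨w, hw, a, h, rfl⟩ | ⟨a, ha, rfl⟩)
    · rw [hΦ, hφS w hw a]
      exact hfg _ (mem_jK hw a h)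
    · rw [hΦ, hφv a]
      rfl

/-- the subgroup of `S ∪ {v}` is an amalgamated product -/
theorem gamg (hv : v ∉ S) :
    Amg ((jA Λ A H v S).subgroupOf (gsub Λ A H (insert v S)))
      ((jB Λ A H v S).subgroupOf (gsub Λ A H (insert v S)))
      ((jK Λ A H v S).subgroupOf (gsub Λ A H (insert v S))) := by
  refine ⟨?_, ?_, ?_, ?_⟩
  · intro x hx
    exact jK_jA hx
  · intro x hx
    exact jK_jB hx
  · rw [eq_top_iff]
    rintro ⟨x, hx⟩ -
    obtain ⟨J, hJ⟩ : ∃ J : Subgroup ↥(gsub Λ A H (insert v S)),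
      J = (jA Λ A H v S).subgroupOf (gsub Λ A H (insert v S)) ⊔
        (jB Λ A H v S).subgroupOf (gsub Λ A H (insert v S)) := ⟨_, rfl⟩
    rw [← hJ]
    have h1 : gsub Λ A H (insert v S) ≤ J.map (gsub Λ A H (insert v S)).subtype := by
      conv_lhs => rw [gsub]
      rw [Subgroup.closure_le]
      rintro _ ⟨w, hw, a, rfl⟩
      refine ⟨⟨_, gsub_of hw a⟩, ?_, rfl⟩
      rw [hJ]
      rcases hw with rfl | hw
      · exact Subgroup.mem_sup_right (mem_jB' a)
      · exact Subgroup.mem_sup_left (mem_jA hw a)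
    obtain ⟨y, hy, hyx⟩ := h1 hx
    have : y = ⟨x, hx⟩ := Subtype.ext hyx
    rwa [this] at hy
  · intro X _ f g hfg
    obtain ⟨Φ, h1, h2⟩ := guniv hv
      (f.comp (MonoidHom.mk' (fun x : ↥(jA Λ A H v S) => ⟨⟨x.1, jA_le x.2⟩, x.2⟩)
        (fun _ _ => rfl)))
      (g.comp (MonoidHom.mk' (fun x : ↥(jB Λ A H v S) => ⟨⟨x.1, jB_le x.2⟩, x.2⟩)
        (fun _ _ => rfl))) (by
        intro x hx
        exact hfg ⟨x, jA_le (jK_jA hx)⟩ hx)
    refine ⟨Φ.comp (gsub Λ A H (insert v S)).subtype, ?_, ?_⟩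
    · rintro ⟨⟨x, hx⟩, hx'⟩
      exact h1 x hx'
    · rintro ⟨⟨x, hx⟩, hx'⟩
      exact h2 x hx'

end amalgam

theorem gp_fin {C : ∀ (G : Type) [Group G], Prop} (hC : ClosedE C) (V : Type) (Λ : SimpleGraph V)
    (A : V → Type) [∀ v, Group (A v)] (H : ∀ v, Subgroup (A v)) (hA : ∀ v, C (A v)) (S : Set V)
    (hS : S.Finite) : C ↥(gsub Λ A H S) := by
  classical
  induction S, hS using Set.Finite.induction_on with
  | empty =>
    have h1 : gsub Λ A H (∅ : Set V) = ⊥ := by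
      rw [gsub, Subgroup.closure_eq_bot_iff]
      rintro x ⟨v, hv, _⟩
      exact hv.elim
    rw [h1]
    exact Pool.Agent.Y430.SS.of_finite hC.base _ inferInstance
  | @insert v S hv hS ih =>
    have hAM : S_AM := Pool.Agent.Y417.FJ.t_am (Pool.Agent.Y961.FJ.t_perm Pool.Agent.Y529.FJ.t_ext)
    -- the values of the homomorphism
    have hkey : ∀ x ∈ gsub Λ A H S, ∀ a : A v, gret Λ A H S (x * GPP.of Λ A H v a) = 1 →
        gvert Λ A H v (x * GPP.of Λ A H v a) = 1 → x * GPP.of Λ A H v a = 1 := by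
      intro x hx a h1 h2
      rw [map_mul, gret_of_not hv, mul_one] at h1
      have h3 := gret_eq (S := S) x hx
      rw [h1] at h3
      have hx1 : x = 1 := h3.symm
      rw [hx1, one_mul, gvert_of] at h2
      rw [hx1, h2, map_one, mul_one]
    refine hAM C hC ↥(gsub Λ A H (insert v S)) (↥(gsub Λ A H S) × A v) _ _ _ (gamg hv)
      (((gret Λ A H S).prod (gvert Λ A H v)).comp (gsub Λ A H (insert v S)).subtype) ?_ ?_
      (hC.base.prod _ _ ih (hA v))
    · rintro ⟨x, hx⟩ hxA hx1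
      obtain ⟨l, hl, a, _, hla⟩ := gsplit (Λ := Λ) (A := A) (H := H) (v := v)
        (D := dS Λ A H S) (L := H v) (by
          rintro _ ⟨w, hw, b, rfl⟩ a ha
          exact (gcomm (by rintro rfl; exact hv hw) b a (Or.inr ha)).symm) x hxA
      apply Subtype.ext
      show x = 1
      have h1 : gret Λ A H S x = 1 := congrArg Prod.fst hx1
      have h2 : gvert Λ A H v x = 1 := congrArg Prod.snd hx1
      rw [hla] at h1 h2 ⊢
      exact hkey l hl a h1 h2
    · rintro ⟨x, hx⟩ hxB hx1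
      obtain ⟨l, hl, a, _, hla⟩ := gsplit (Λ := Λ) (A := A) (H := H) (v := v)
        (D := dM Λ A H v S) (L := ⊤) (by
          rintro _ ⟨w, hw, b, h, rfl⟩ a _
          exact gcomm (by rintro rfl; exact hv hw) a b h) x hxB
      apply Subtype.ext
      show x = 1
      have h1 : gret Λ A H S x = 1 := congrArg Prod.fst hx1
      have h2 : gvert Λ A H v x = 1 := congrArg Prod.snd hx1
      rw [hla] at h1 h2 ⊢
      exact hkey l (Subgroup.closure_mono dM_sub hl) a h1 h2

/-- every element is in the subgroup of a finite set of vertices -/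
theorem gsupp {V : Type} (Λ : SimpleGraph V) (A : V → Type) [∀ v, Group (A v)]
    (H : ∀ v, Subgroup (A v)) (x : GPP Λ A H) :
    ∃ S : Finset V, x ∈ gsub Λ A H (S : Set V) := by
  classical
  obtain ⟨y, rfl⟩ := QuotientGroup.mk_surjective x
  induction y using Monoid.CoprodI.induction_on with
  | one => exact ⟨∅, Subgroup.one_mem _⟩
  | of v a => exact ⟨{v}, gsub_of (by simp) a⟩
  | mul x y hx hy =>
    obtain ⟨S, hS⟩ := hx
    obtain ⟨T, hT⟩ := hy
    refine ⟨S ∪ T, ?_⟩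
    rw [QuotientGroup.mk_mul]
    refine Subgroup.mul_mem _ (gsub_mono ?_ hS) (gsub_mono ?_ hT)
    · rw [Finset.coe_union]; exact Set.subset_union_left
    · rw [Finset.coe_union]; exact Set.subset_union_right

/-- graph products of pairs -/
theorem gpp {C : ∀ (G : Type) [Group G], Prop} (hC : ClosedE C) (V : Type) (Λ : SimpleGraph V)
    (A : V → Type) [∀ v, Group (A v)] (H : ∀ v, Subgroup (A v)) (hA : ∀ v, C (A v)) :
    C (GPP Λ A H) := by
  classical
  refine Pool.Agent.Y430.SS.of_directed hC.base (GPP Λ A H) (Finset V)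
    (fun S T => ⟨S ∪ T, Finset.subset_union_left, Finset.subset_union_right⟩)
    (fun S => gsub Λ A H (S : Set V)) (fun S T h => gsub_mono (by exact_mod_cast h))
    (gsupp Λ A H) (fun S => gp_fin hC V Λ A H hA _ S.finite_toSet)

end Run7.h528.PP
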